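import Pool.Agent.H15.UB.Targets

/-!
# ubs_modules GEN: choice of the generators
-/

open Module

namespace Pool.Agent.H89.UB

open Pool.Agent.H15.UB Pool.Agent.H15.Defect

universe u

section Lin

variable {k V : Type u} [Field k] [AddCommGroup V] [Module k V]

theorem exists_compl_in (U M : Submodule k V) (h : U ≤ M) :
    ∃ W : Submodule k V, W ≤ M ∧ W ⊔ U = M ∧ W ⊓ U = ⊥ := by
  obtain ⟨W', hW'⟩ := exists_isCompl U
  refine ⟨W' ⊓ M, inf_le_right, ?_, ?_⟩
  · rw [sup_comm, ← sup_inf_assoc_of_le W' h, hW'.sup_eq_top, top_inf_eq]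
  · have h1 : W' ⊓ M ⊓ U ≤ U ⊓ W' := le_inf inf_le_right (inf_le_left.trans inf_le_left)
    rw [hW'.inf_eq_bot] at h1
    exact le_bot_iff.1 h1

theorem span_fin [FiniteDimensional k V] (W : Submodule k V) :
    Submodule.span k (Set.range fun i : Fin (finrank k W) => ((Module.finBasis k W i : W) : V)) =
      W := by
  have h1 := (Module.finBasis k W).span_eq
  have h2 := congrArg (Submodule.map W.subtype) h1
  rw [Submodule.map_span, Submodule.map_subtype_top, ← Set.range_comp] at h2
  exact h2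

end Lin

section Gen

variable {k A : Type u} [Field k] [IsAlgClosed k] [CommRing A] [Algebra k A] [Module.Finite k A]
  [IsLocalRing A]

theorem exists_scalar (a : A) : ∃ c : k, a - algebraMap k A c ∈ IsLocalRing.maximalIdeal A := by
  have h1 : Function.Bijective (algebraMap k (A ⧸ IsLocalRing.maximalIdeal A)) := by
    haveI : IsDomain (A ⧸ IsLocalRing.maximalIdeal A) := Ideal.Quotient.isDomain _
    haveI : Algebra.IsIntegral k (A ⧸ IsLocalRing.maximalIdeal A) :=
      Algebra.IsIntegral.of_finite k _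
    exact IsAlgClosed.algebraMap_bijective_of_isIntegral
  obtain ⟨c, hc⟩ := h1.2 (Ideal.Quotient.mk _ a)
  refine ⟨c, ?_⟩
  rw [← Ideal.Quotient.eq_zero_iff_mem, map_sub, sub_eq_zero, ← hc]
  rfl

theorem step (S : Subalgebra k A)
    (h : ∀ a ∈ IsLocalRing.maximalIdeal A, ∃ s ∈ S, a - s ∈ IsLocalRing.maximalIdeal A ^ 2)
    (j : ℕ) : ∀ a ∈ IsLocalRing.maximalIdeal A ^ (j + 1),
      ∃ s ∈ S, a - s ∈ IsLocalRing.maximalIdeal A ^ (j + 2) := by
  induction j with
  | zero =>
    intro a ha
    rw [zero_add, pow_one] at ha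
    exact h a ha
  | succ j ih =>
    intro a ha
    rw [pow_succ] at ha
    refine Submodule.mul_induction_on ha (fun b hb c hc => ?_) fun b c hb hc => ?_
    · obtain ⟨s, hs, hs'⟩ := ih b hb
      obtain ⟨t, ht, ht'⟩ := h c hc
      refine ⟨s * t, S.mul_mem hs ht, ?_⟩
      have h1 : s ∈ IsLocalRing.maximalIdeal A ^ (j + 1) := by
        have h2 : b - (b - s) = s := by ring
        rw [← h2]
        exact Ideal.sub_mem _ hb (Ideal.pow_le_pow_right (by omega) hs')
      have e : b * c - s * t = (b - s) * c + s * (c - t) := by ring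
      rw [e]
      refine Ideal.add_mem _ ?_ ?_
      · have h3 := Ideal.mul_mem_mul hs' hc
        rw [← pow_succ] at h3
        exact h3
      · have h3 := Ideal.mul_mem_mul h1 ht'
        rw [← pow_add] at h3
        have e2 : j + 1 + 2 = j + 1 + 2 := rfl
        exact h3
    · obtain ⟨s, hs, hs'⟩ := hb
      obtain ⟨t, ht, ht'⟩ := hc
      refine ⟨s + t, S.add_mem hs ht, ?_⟩
      have e : b + c - (s + t) = (b - s) + (c - t) := by ring
      rw [e]
      exact Ideal.add_mem _ hs' ht'

theorem adjoin_top (S : Subalgebra k A)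
    (h : ∀ a ∈ IsLocalRing.maximalIdeal A, ∃ s ∈ S, a - s ∈ IsLocalRing.maximalIdeal A ^ 2) :
    S = ⊤ := by
  haveI : IsArtinianRing A := IsArtinianRing.of_finite k A
  obtain ⟨n, hn⟩ : ∃ n : ℕ, IsLocalRing.maximalIdeal A ^ n = ⊥ := by
    have h1 := IsArtinianRing.isNilpotent_jacobson_bot (R := A)
    rw [IsLocalRing.jacobson_eq_maximalIdeal ⊥ bot_ne_top] at h1
    exact h1
  have h2 : ∀ j : ℕ, ∀ a : A, ∃ s ∈ S, a - s ∈ IsLocalRing.maximalIdeal A ^ (j + 1) := by
    intro j
    induction j with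
    | zero =>
      intro a
      obtain ⟨c, hc⟩ := exists_scalar (k := k) a
      refine ⟨algebraMap k A c, S.algebraMap_mem c, ?_⟩
      rwa [zero_add, pow_one]
    | succ j ih =>
      intro a
      obtain ⟨s, hs, hs'⟩ := ih a
      obtain ⟨t, ht, ht'⟩ := step S h j _ hs'
      refine ⟨s + t, S.add_mem hs ht, ?_⟩
      have e : a - (s + t) = a - s - t := by ring
      rw [e]
      exact ht'
  rw [eq_top_iff]
  intro a _
  obtain ⟨s, hs, hs'⟩ := h2 n a
  have h3 : a - s ∈ (⊥ : Ideal A) := by
    rw [← hn]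
    exact Ideal.pow_le_pow_right (by omega) hs'
  rw [Ideal.mem_bot, sub_eq_zero] at h3
  rw [h3]
  exact hs

end Gen

theorem pf_GEN : T_GEN.{u} := by
  intro k _ _ A _ _ _ _ s h hd
  set m := IsLocalRing.maximalIdeal A with hm
  set L := (m ^ s).annihilator with hL
  set L' : Ideal A := L ⊓ m with hL'
  set M : Submodule k A := m.restrictScalars k with hM
  set M2 : Submodule k A := (m ^ 2).restrictScalars k with hM2
  set LL : Submodule k A := L'.restrictScalars k with hLL
  have hm2 : m ^ 2 ≤ m := Ideal.pow_le_self (by norm_num)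
  have hM2M : M2 ≤ M := fun a ha => hm2 ha
  have hLLM : LL ≤ M := fun a ha => ha.2
  have hlt : finrank k M < finrank k A := by
    refine Submodule.finrank_lt ?_
    intro htop
    have h1 : (1 : A) ∈ M := by
      rw [htop]
      exact Submodule.mem_top
    exact (Ideal.ne_top_iff_one m).1 (IsLocalRing.maximalIdeal.isMaximal A).ne_top h1
  have hJ : finrank k M ≤ finrank k (LL ⊔ M2 : Submodule k A) + h := by
    by_cases hLt : L = ⊤
    · have h1 : LL = M := by
        rw [hLL, hL', hLt, top_inf_eq]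
      rw [h1, sup_eq_left.2 hM2M]
      omega
    · have h1 : L ≤ m := IsLocalRing.le_maximalIdeal hLt
      have h2 : L' = L := inf_eq_left.2 h1
      have h3 : ((L ⊔ m ^ 2).restrictScalars k : Submodule k A) = LL ⊔ M2 := by
        ext a
        rw [Submodule.restrictScalars_mem, Submodule.mem_sup, Submodule.mem_sup, hLL, h2]
        rfl
      have h4 : finrank k A ≤ finrank k ((L ⊔ m ^ 2).restrictScalars k : Submodule k A) + h + 1 :=
        hd
      rw [h3] at h4
      omega
  obtain ⟨W, hWM, hWs, hWi⟩ := exists_compl_in (LL ⊔ M2) M (sup_le hLLM hM2M)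
  obtain ⟨Z, hZL, hZs, hZi⟩ := exists_compl_in (LL ⊓ M2) LL inf_le_left
  have c1 := Submodule.finrank_sup_add_finrank_inf_eq W (LL ⊔ M2)
  rw [hWs, hWi, finrank_bot, add_zero] at c1
  have c2 := Submodule.finrank_sup_add_finrank_inf_eq Z (LL ⊓ M2)
  rw [hZs, hZi, finrank_bot, add_zero] at c2
  have c3 := Submodule.finrank_sup_add_finrank_inf_eq LL M2
  refine ⟨finrank k W + finrank k Z, Fin.append (fun i => ((Module.finBasis k W i : W) : A))
    (fun i => ((Module.finBasis k Z i : Z) : A)), ?_, ?_, ?_, ?_⟩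
  · omega
  · apply adjoin_top
    intro a ha
    have ha' : a ∈ W ⊔ (LL ⊔ M2) := by
      rw [hWs]
      exact ha
    obtain ⟨w, hw, b, hb, rfl⟩ := Submodule.mem_sup.1 ha'
    obtain ⟨l, hl, c, hc, rfl⟩ := Submodule.mem_sup.1 hb
    rw [← hZs] at hl
    obtain ⟨z, hz, d, hd', rfl⟩ := Submodule.mem_sup.1 hl
    have hsub : ∀ T : Set A, (Submodule.span k T) ≤
        Subalgebra.toSubmodule (Algebra.adjoin k T) := fun T => Algebra.span_le_adjoin k T
    refine ⟨w + z, ?_, ?_⟩
    · refine Subalgebra.add_mem _ ?_ ?_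
      · rw [← span_fin W] at hw
        refine hsub _ (Submodule.span_mono ?_ hw)
        rintro _ ⟨i, rfl⟩
        exact ⟨Fin.castAdd _ i, by rw [Fin.append_left]⟩
      · rw [← span_fin Z] at hz
        refine hsub _ (Submodule.span_mono ?_ hz)
        rintro _ ⟨i, rfl⟩
        exact ⟨Fin.natAdd _ i, by rw [Fin.append_right]⟩
    · have e : w + (z + d + c) - (w + z) = d + c := by ring
      rw [e]
      exact Ideal.add_mem _ hd'.2 hc
  · intro i
    refine Fin.addCases (fun j => ?_) (fun j => ?_) i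
    · rw [Fin.append_left]
      exact hWM (Module.finBasis k W j).2
    · rw [Fin.append_right]
      exact hLLM (hZL (Module.finBasis k Z j).2)
  · intro i
    refine Fin.addCases (fun j hj => ?_) (fun j _ => ?_) i
    · exfalso
      rw [Fin.val_castAdd] at hj
      have := j.2
      omega
    · rw [Fin.append_right]
      exact (hZL (Module.finBasis k Z j).2).1

end Pool.Agent.H89.UB
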